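import Mathlib

namespace Pool.Agent.Results.MP_b44554_al.Depends

/-- An algebra: a nonempty set with a family of finitary basic operations. -/
structure Alg where
  A : Type
  ne : Nonempty A
  ι : Type
  ar : ι → ℕ
  op : ∀ i, (Fin (ar i) → A) → A

/-- The `k`-ary term operations. -/
inductive Clo (X : Alg) (k : ℕ) : ((Fin k → X.A) → X.A) → Prop
  | proj (i : Fin k) : Clo X k fun x => x i
  | app (i : X.ι) (g : Fin (X.ar i) → (Fin k → X.A) → X.A) :
      (∀ j, Clo X k (g j)) → Clo X k fun x => X.op i fun j => g j x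

inductive Tm {m : ℕ} (ar : Fin m → ℕ) (n : ℕ) : Type
  | var : Fin n → Tm ar n
  | app (f : Fin m) : (Fin (ar f) → Tm ar n) → Tm ar n

def Tm.eval {m n : ℕ} {ar : Fin m → ℕ} {A : Type} (I : ∀ f, (Fin (ar f) → A) → A)
    (x : Fin n → A) : Tm ar n → A
  | .var i => x i
  | .app f t => I f fun j => (t j).eval I x

/-- A strong Maltsev condition. -/
structure Cond where
  m : ℕ
  ar : Fin m → ℕ
  n : ℕ
  eqs : List (Tm ar n × Tm ar n)

def SatOn (X : Alg) (C : Cond) (F : Set (Fin C.n → X.A)) : Prop :=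
  ∃ I : ∀ f, (Fin (C.ar f) → X.A) → X.A, (∀ f, Clo X _ (I f)) ∧
    ∀ e ∈ C.eqs, ∀ x ∈ F, e.1.eval I x = e.2.eval I x

def LocalGlobal (C : Cond) : Prop :=
  ∃ k : ℕ, 1 ≤ k ∧ ∀ X : Alg, (k : Cardinal) ≤ Cardinal.mk X.A ^ C.n →
    (∀ F : Finset (Fin C.n → X.A), F.card = k → SatOn X C F) →
      ∀ F : Finset (Fin C.n → X.A), SatOn X C F

def C1 : Cond := ⟨0, Fin.elim0, 2, [(.var 0, .var 1)]⟩

def ar2 : Fin 2 → ℕ := ![4, 1]
def d (a b c e : Tm ar2 3) : Tm ar2 3 := .app 0 ![a, b, c, e]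
def c (a : Tm ar2 3) : Tm ar2 3 := .app 1 ![a]
def C2 : Cond := ⟨2, ar2, 3, [(d (.var 0) (.var 0) (.var 1) (.var 2), .var 1),
  (d (.var 0) (c (.var 1)) (.var 1) (.var 2), .var 2)]⟩

lemma ev (A : Type) (I : ∀ f, (Fin (ar2 f) → A) → A) (x : Fin 3 → A) :
    (∀ e ∈ C2.eqs, e.1.eval I x = e.2.eval I x) ↔
      I 0 ![x 0, x 0, x 1, x 2] = x 1 ∧ I 0 ![x 0, I 1 ![x 1], x 1, x 2] = x 2 := by
  have h1 : ∀ a : Tm ar2 3, (c a).eval I x = I 1 ![a.eval I x] := fun a => by
    change I 1 _ = _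
    congr 1
    funext j
    fin_cases j
    rfl
  have h2 : ∀ a b e f : Tm ar2 3,
      (d a b e f).eval I x = I 0 ![a.eval I x, b.eval I x, e.eval I x, f.eval I x] := by
    intro a b e f
    change I 0 _ = _
    congr 1
    funext j
    fin_cases j <;> rfl
  refine List.forall_mem_cons.trans (and_congr ?_ (List.forall_mem_singleton.trans ?_))
  · exact (congrArg (· = x 1) (h2 (.var 0) (.var 0) (.var 1) (.var 2))).to_iff
  · have := h2 (.var 0) (c (.var 1)) (.var 1) (.var 2)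
    rw [h1] at this
    exact (congrArg (· = x 2) this).to_iff

lemma sub2 (X : Alg) (h : SatOn X C2 Set.univ) (y z : X.A) : y = z := by
  obtain ⟨I, -, h⟩ := h
  have := (ev X.A I ![I (1 : Fin 2) ![y], y, z]).1 fun e he => h e he _ trivial
  exact this.1.symm.trans this.2

theorem result : ∃ C D : Cond, (∀ X : Alg, SatOn X C Set.univ ↔ SatOn X D Set.univ) ∧
    LocalGlobal C ∧ ¬ LocalGlobal D := by
  have h1 : ∀ (X : Alg) F, SatOn X C1 F ↔ ∀ x ∈ F, x (0 : Fin 2) = x (1 : Fin 2) := fun X F =>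
    ⟨fun ⟨_, _, h⟩ => h _ List.mem_cons_self, fun h => ⟨fun f => f.elim0, fun f => f.elim0, by
      intro e he
      obtain rfl := List.mem_singleton.1 he
      exact h⟩⟩
  refine ⟨C1, C2, fun X => ⟨fun h => ?_, fun h => (h1 X _).2 fun x _ => sub2 X h _ _⟩,
    ⟨1, le_rfl, fun X _ h F => (h1 X _).2 fun x _ => (h1 X _).1 (h {x} rfl) x (by simp)⟩, ?_⟩
  · have h0 : ∀ f, 0 < ar2 f := by decide
    exact ⟨fun f x => x ⟨0, h0 f⟩, fun f => .proj _, fun e _ x _ =>
      (h1 X _).1 h ![_, _] trivial⟩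
  · rintro ⟨k, hk, h⟩
    let X : Alg := ⟨Fin (k + 1), inferInstance, Σ n, (Fin n → Fin (k + 1)) → Fin (k + 1),
      Sigma.fst, Sigma.snd⟩
    have hX : ∀ n f, Clo X n f := fun n f => Clo.app (X := X) ⟨n, f⟩ _ fun j => .proj j
    have h2 := h X (by
      change _ ≤ Cardinal.mk (Fin (k + 1)) ^ 3
      rw [Cardinal.mk_fin]
      exact_mod_cast (Nat.le_succ k).trans (Nat.le_self_pow (by norm_num) _)) (fun F hF => by
      obtain ⟨a, -, ha⟩ := Finset.exists_mem_notMem_of_card_lt_card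
        (s := F.image fun x => (x (0 : Fin 3) : Fin (k + 1))) (t := Finset.univ)
        (Finset.card_image_le.trans_lt (by simp [hF]))
      let I : ∀ f, (Fin (ar2 f) → Fin (k + 1)) → Fin (k + 1) := fun f =>
        match f with
        | 0 => fun v : Fin 4 → _ => if v 0 = v 1 then v 2 else v 3
        | 1 => fun _ => a
      have : ∀ x ∈ F, ∀ e ∈ C2.eqs, e.1.eval I x = e.2.eval I x := fun x hx =>
        (ev _ I x).2 ⟨if_pos rfl, if_neg fun h0 => ha (Finset.mem_image.2 ⟨x, hx, h0⟩)⟩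
      exact ⟨I, fun f => hX _ _, fun e he x hx => this x hx e he⟩)
      (Finset.univ : Finset (Fin 3 → Fin (k + 1)))
    obtain ⟨I, h3, h4⟩ := h2
    have := congrArg Fin.val (sub2 X ⟨I, h3, fun e he x _ => h4 e he x
      (Finset.mem_univ (α := Fin 3 → Fin (k + 1)) x)⟩ (0 : Fin (k + 1)) (Fin.last k))
    simp at this
    omega

end Pool.Agent.Results.MP_b44554_al.Depends
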